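import Pool.Agent.QSX.StmtsE

/-!
# Squad QSX, row EHM: the map of an algebraic embedding is a homomorphism
-/

set_option autoImplicit false

namespace Pool.Agent.QSX.H60

open Matrix Pool.Agent.QSX

/-- `x ↦ bd x (T x)` -/
noncomputable def bdL {X Y : Dat} (F : EmbData X Y) :
    X.n →ₗ[ℝ] Matrix (Fin (X.m + Y.m)) (Fin (X.m + Y.m)) ℝ where
  toFun x := bd (x : Matrix (Fin X.m) (Fin X.m) ℝ) (F.T x)
  map_add' x y := by
    rw [Submodule.coe_add, map_add, bd_add]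
  map_smul' c x := by
    rw [Submodule.coe_smul, map_smul, RingHom.id_apply, bd_smul]

/-- `c ↦ append c (P c)` -/
noncomputable def apL {X Y : Dat} (F : EmbData X Y) : X.b →ₗ[ℝ] (Fin (X.m + Y.m) → ℝ) where
  toFun c := Fin.append (c : Fin X.m → ℝ) (F.P c)
  map_add' x y := by
    funext i
    refine Fin.addCases (fun i => ?_) (fun i => ?_) i
    · simp only [Fin.append_left, Pi.add_apply, Submodule.coe_add]
    · simp only [Fin.append_right, Pi.add_apply, map_add]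
  map_smul' c x := by
    funext i
    refine Fin.addCases (fun i => ?_) (fun i => ?_) i
    · simp only [Fin.append_left, Pi.smul_apply, Submodule.coe_smul, RingHom.id_apply]
    · simp only [Fin.append_right, Pi.smul_apply, map_smul, RingHom.id_apply]

/-- the graph datum -/
noncomputable def grD {X Y : Dat} (F : EmbData X Y) : Dat where
  m := X.m + Y.m
  b := LinearMap.range (apL F)
  n := LinearMap.range (bdL F)
  su := by
    rintro _ ⟨x, rfl⟩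
    exact SU_bd (X.su x x.2) (Y.su _ (F.Tn x))
  lie := by
    rintro _ ⟨x, rfl⟩ _ ⟨y, rfl⟩
    refine ⟨⟨_, X.lie x x.2 y y.2⟩, ?_⟩
    change bd _ _ = bd _ _ * bd _ _ - bd _ _ * bd _ _
    rw [bd_mul, bd_mul, bd_sub, F.lie]
  stab := by
    rintro _ ⟨c, rfl⟩ _ ⟨x, rfl⟩
    refine ⟨⟨_, X.stab c c.2 x x.2⟩, ?_⟩
    change bd _ _ = diagonal (Fin.append _ _) * bd _ _ - bd _ _ * diagonal (Fin.append _ _)
    rw [← bd_diagonal, bd_mul, bd_mul, bd_sub, F.act]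

/-- the point of the graph datum over a point of `X` -/
noncomputable def hat {X Y : Dat} (F : EmbData X Y) (p : X.Pt) : (grD F).Pt :=
  (⟨bdL F p.1, ⟨p.1, rfl⟩⟩, ⟨apL F p.2, ⟨p.2, rfl⟩⟩)

theorem hat_surj {X Y : Dat} (F : EmbData X Y) (r : (grD F).Pt) : ∃ p : X.Pt, hat F p = r := by
  obtain ⟨⟨_, x, rfl⟩, ⟨_, c, rfl⟩⟩ := r
  exact ⟨(x, c), rfl⟩

theorem mat_hat {X Y : Dat} (h1 : EbdStmt) (F : EmbData X Y) (p : X.Pt) :
    (grD F).mat (hat F p) = bdU (X.mat p) (Y.mat (F.map p)) := by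
  have e1 : ue (bd (p.1 : Matrix (Fin X.m) (Fin X.m) ℝ) (F.T p.1)) =
      bdU (ue (p.1 : Matrix (Fin X.m) (Fin X.m) ℝ)) (ue (F.T p.1)) :=
    (h1.1 ℝ X.m Y.m _ _ (X.su p.1 p.1.2) (Y.su _ (F.Tn p.1))).2
  have e2 : ud (Fin.append (p.2 : Fin X.m → ℝ) (F.P p.2)) =
      bdU (ud (p.2 : Fin X.m → ℝ)) (ud (F.P p.2)) := h1.2 X.m Y.m _ _
  change ue (bd (p.1 : Matrix (Fin X.m) (Fin X.m) ℝ) (F.T p.1)) *
    ud (Fin.append (p.2 : Fin X.m → ℝ) (F.P p.2)) = _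
  rw [e1, e2, bdU_mul]
  rfl

theorem ehm (h1 : EbdStmt) (h2 : DfnStmt) : EhmStmt := by
  intro X Y F p q
  obtain ⟨r', hr', -⟩ := h2 (grD F) (hat F p) (hat F q)
  obtain ⟨r, rfl⟩ := hat_surj F r'
  rw [mat_hat h1, mat_hat h1, mat_hat h1] at hr'
  have hr2 : (bdU (X.mat p) (Y.mat (F.map p)))⁻¹ * bdU (X.mat q) (Y.mat (F.map q)) =
      bdU (X.mat r) (Y.mat (F.map r)) := hr'
  rw [bdU_inv, bdU_mul] at hr2
  exact ⟨r, bdU_inj hr2⟩

end Pool.Agent.QSX.H60
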