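import Pool.Agent.QSX.StmtsA

/-!
# Squad QSX, row NSI: the steps of a factor of a commutator formula do not depend on the point
-/

set_option autoImplicit false

namespace Pool.Agent.QSX.H60

open Pool.Agent.QSX

theorem RG_u_zero {ι G H : Type} [Group G] [Group H] (D : RG ι G H) (l : ι) : D.u l 0 = 1 := by
  have h := D.add l 0 0
  rw [add_zero] at h
  exact left_eq_mul.1 h

theorem RG_u_neg {ι G H : Type} [Group G] [Group H] (D : RG ι G H) (l : ι) (z : ℚ) :
    D.u l (-z) = (D.u l z)⁻¹ := by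
  have h := D.add l z (-z)
  rw [add_neg_cancel, RG_u_zero] at h
  exact (inv_eq_of_mul_eq_one_right h.symm).symm

theorem list_split {ι G : Type} [Group G] (K : Subgroup G) (Λ : List (ι × ℕ × ℕ × ℚ))
    (hnd : (Λ.map fun t => t.1).Nodup) (t : ι × ℕ × ℕ × ℚ) (ht : t ∈ Λ)
    (φ : ι × ℕ × ℕ × ℚ → G) (hφ : ∀ t' ∈ Λ, t'.1 ≠ t.1 → φ t' ∈ K)
    (hp : (Λ.map φ).prod ∈ K) : φ t ∈ K := by
  obtain ⟨s, s', rfl⟩ := List.append_of_mem ht
  rw [List.map_append, List.map_cons] at hnd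
  rw [List.nodup_append, List.nodup_cons] at hnd
  obtain ⟨-, ⟨hn1, -⟩, hn2⟩ := hnd
  have hs : (s.map φ).prod ∈ K := by
    apply K.list_prod_mem
    intro g hg
    obtain ⟨t', ht', rfl⟩ := List.mem_map.1 hg
    refine hφ t' (List.mem_append_left _ ht') ?_
    exact hn2 t'.1 (List.mem_map.2 ⟨t', ht', rfl⟩) t.1 List.mem_cons_self
  have hs' : (s'.map φ).prod ∈ K := by
    apply K.list_prod_mem
    intro g hg
    obtain ⟨t', ht', rfl⟩ := List.mem_map.1 hg
    refine hφ t' (List.mem_append_right _ (List.mem_cons_of_mem _ ht')) ?_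
    intro h
    exact hn1 (h ▸ List.mem_map.2 ⟨t', ht', rfl⟩)
  rw [List.map_append, List.map_cons, List.prod_append, List.prod_cons] at hp
  have h2 := (K.mul_mem_cancel_left hs).1 hp
  exact (K.mul_mem_cancel_right hs').1 h2

theorem nsi (h1 : WarStmt) : NsiStmt := by
  intro ι G H _ _ D hInv l l' hl t ht hc n hn x
  set K : Subgroup G := Subgroup.closure {g | ∃ (m : ι) (y : ℚ), m ≠ t.1 ∧ g = D.u m y} with hK
  have hKm : ∀ m y, m ≠ t.1 → D.u m y ∈ K := fun m y hm =>
    Subgroup.subset_closure ⟨m, y, hm, rfl⟩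
  have hne := D.ne l l' hl t ht
  -- the factor lies in `K`
  have hfac : ∀ a b : ℚ, D.u t.1 (t.2.2.2 * a ^ t.2.1 * b ^ t.2.2.1) ∈ K := by
    intro a b
    have hcom := D.com l l' hl a b
    have hmem : ((D.L l l').map fun t => D.u t.1 (t.2.2.2 * a ^ t.2.1 * b ^ t.2.2.1)).prod ∈ K := by
      rw [← hcom]
      exact K.mul_mem (K.mul_mem (K.mul_mem (hKm _ _ (Ne.symm hne.1)) (hKm _ _ (Ne.symm hne.2)))
        (K.inv_mem (hKm _ _ (Ne.symm hne.1)))) (K.inv_mem (hKm _ _ (Ne.symm hne.2)))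
    exact list_split K (D.L l l') (D.nodup l l') t ht
      (fun t => D.u t.1 (t.2.2.2 * a ^ t.2.1 * b ^ t.2.2.1)) (fun t' _ h => hKm _ _ h) hmem
  have hpq := D.pq l l' t ht
  have hall : ∀ z : ℚ, D.u t.1 z ∈ K := by
    let A : AddSubgroup ℚ :=
      { carrier := {z | D.u t.1 z ∈ K}
        add_mem' := by
          intro a b ha hb
          change D.u t.1 (a + b) ∈ K
          rw [D.add]
          exact K.mul_mem ha hb
        zero_mem' := by
          change D.u t.1 0 ∈ K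
          rw [RG_u_zero]
          exact K.one_mem
        neg_mem' := by
          intro a ha
          change D.u t.1 (-a) ∈ K
          rw [RG_u_neg]
          exact K.inv_mem ha }
    intro z
    exact h1 A t.2.2.2 t.2.1 t.2.2.1 hc hpq.1 hpq.2 hfac z
  -- the stabiliser of the steps
  let H₀ : Subgroup G :=
    { carrier := {g | g ∈ D.Gam ∧ ∀ n ∈ D.Gam, ∀ x : ℚ, D.V t.1 (n * g) x = D.V t.1 n x}
      mul_mem' := by
        rintro a b ⟨ha, ha'⟩ ⟨hb, hb'⟩
        refine ⟨D.Gam.mul_mem ha hb, fun n hn x => ?_⟩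
        rw [← mul_assoc, hb' (n * a) (D.Gam.mul_mem hn ha) x, ha' n hn x]
      one_mem' := ⟨D.Gam.one_mem, fun n _ x => by rw [mul_one]⟩
      inv_mem' := by
        rintro a ⟨ha, ha'⟩
        refine ⟨D.Gam.inv_mem ha, fun n hn x => ?_⟩
        have := ha' (n * a⁻¹) (D.Gam.mul_mem hn (D.Gam.inv_mem ha)) x
        rw [inv_mul_cancel_right] at this
        exact this.symm }
  have hG : ∀ m y, D.u m y ∈ D.Gam := fun m y => Subgroup.subset_closure ⟨m, y, rfl⟩
  have hKH : K ≤ H₀ := by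
    rw [hK, Subgroup.closure_le]
    rintro _ ⟨m, y, hm, rfl⟩
    exact ⟨hG m y, fun n hn x => hInv t.1 m (Ne.symm hm) n hn x y⟩
  have hGH : D.Gam ≤ H₀ := by
    rw [RG.Gam, Subgroup.closure_le]
    rintro _ ⟨m, y, rfl⟩
    by_cases hm : m = t.1
    · rw [hm]
      exact hKH (hall y)
    · exact hKH (hKm m y hm)
  have := (hGH hn).2 1 D.Gam.one_mem x
  rwa [one_mul] at this

end Pool.Agent.QSX.H60
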