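import Pool.Agent.QSX.StmtsM

/-!
# Squad QSX, row FEX: extensions of groups with approximately invariant families
-/

set_option autoImplicit false

namespace Pool.Agent.QSX.H60

open Pool.Agent.QSX

theorem fex : FexStmt := by
  classical
  intro G Q _ _ φ hφ hQ hK H δ hδ
  set σ : Q → G := Function.surjInv hφ with hσdef
  have hσ : ∀ q, φ (σ q) = q := fun q => Function.surjInv_eq hφ q
  obtain ⟨N, q, hN, hq⟩ := hQ (H.image φ) (δ / 2) (by positivity)
  -- the cocycle
  have hc : ∀ (i : Fin N) (h : G), σ (q i) * h * (σ (q i * φ h))⁻¹ ∈ φ.ker := by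
    intro i h
    rw [MonoidHom.mem_ker, map_mul, map_mul, map_inv, hσ, hσ, mul_inv_cancel]
  obtain ⟨N', k, hN', hk⟩ := hK
    ((Finset.univ ×ˢ H).image fun t : Fin N × G =>
      (⟨σ (q t.1) * t.2 * (σ (q t.1 * φ t.2))⁻¹, hc t.1 t.2⟩ : φ.ker)) (δ / 2) (by positivity)
  have hN'R : (0 : ℝ) < N' := by exact_mod_cast hN'
  have hNR : (0 : ℝ) < N := by exact_mod_cast hN
  refine ⟨N * N', fun t => (k (finProdFinEquiv.symm t).2 : G) * σ (q (finProdFinEquiv.symm t).1),
    Nat.mul_pos hN hN', ?_⟩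
  intro h hh F hF
  have e1 : ∀ g : G, ∑ t : Fin (N * N'),
      F ((k (finProdFinEquiv.symm t).2 : G) * σ (q (finProdFinEquiv.symm t).1) * g) =
      ∑ i : Fin N, ∑ j : Fin N', F ((k j : G) * σ (q i) * g) := by
    intro g
    rw [← Equiv.sum_comp finProdFinEquiv, Fintype.sum_prod_type]
    simp only [Equiv.symm_apply_apply]
  have e0 : ∑ t : Fin (N * N'),
      F ((k (finProdFinEquiv.symm t).2 : G) * σ (q (finProdFinEquiv.symm t).1)) =
      ∑ i : Fin N, ∑ j : Fin N', F ((k j : G) * σ (q i)) := by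
    have := e1 1
    simpa only [mul_one] using this
  rw [e1 h, e0]
  -- first part
  have A1 : |∑ i : Fin N, ∑ j : Fin N', F ((k j : G) * σ (q i) * h) -
      ∑ i : Fin N, ∑ j : Fin N', F ((k j : G) * σ (q i * φ h))| ≤ (δ / 2 * N') * N := by
    rw [← Finset.sum_sub_distrib]
    refine (Finset.abs_sum_le_sum_abs _ _).trans ?_
    have hi : ∀ i ∈ (Finset.univ : Finset (Fin N)),
        |∑ j : Fin N', F ((k j : G) * σ (q i) * h) -
          ∑ j : Fin N', F ((k j : G) * σ (q i * φ h))| ≤ δ / 2 * N' := by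
      intro i _
      have h1 := hk ⟨σ (q i) * h * (σ (q i * φ h))⁻¹, hc i h⟩
        (Finset.mem_image.2 ⟨(i, h), Finset.mem_product.2 ⟨Finset.mem_univ _, hh⟩, rfl⟩)
        (fun x => F ((x : G) * σ (q i * φ h))) (fun x => hF _)
      have h2 : ∀ j : Fin N', F (((k j * ⟨σ (q i) * h * (σ (q i * φ h))⁻¹, hc i h⟩ : φ.ker) : G) *
          σ (q i * φ h)) = F ((k j : G) * σ (q i) * h) := by
        intro j
        congr 1
        rw [Subgroup.coe_mul]
        group
      simp only [h2] at h1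
      exact h1
    refine (Finset.sum_le_sum hi).trans (le_of_eq ?_)
    rw [Finset.sum_const, Finset.card_univ, Fintype.card_fin, nsmul_eq_mul]
    ring
  -- second part
  have A2 : |∑ i : Fin N, ∑ j : Fin N', F ((k j : G) * σ (q i * φ h)) -
      ∑ i : Fin N, ∑ j : Fin N', F ((k j : G) * σ (q i))| ≤ (δ / 2 * N) * N' := by
    have h1 := hq (φ h) (Finset.mem_image_of_mem _ hh)
      (fun x => (∑ j : Fin N', F ((k j : G) * σ x)) / N') (by
        intro x
        rw [abs_div, abs_of_pos hN'R, div_le_one hN'R]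
        refine (Finset.abs_sum_le_sum_abs _ _).trans ?_
        refine (Finset.sum_le_sum fun j _ => hF _).trans (le_of_eq ?_)
        rw [Finset.sum_const, Finset.card_univ, Fintype.card_fin, nsmul_eq_mul, mul_one])
    simp only [← Finset.sum_div] at h1
    rw [← sub_div, abs_div, abs_of_pos hN'R, div_le_iff₀ hN'R] at h1
    exact h1
  have A3 := abs_sub_le (∑ i : Fin N, ∑ j : Fin N', F ((k j : G) * σ (q i) * h))
    (∑ i : Fin N, ∑ j : Fin N', F ((k j : G) * σ (q i * φ h)))
    (∑ i : Fin N, ∑ j : Fin N', F ((k j : G) * σ (q i)))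
  refine A3.trans ((add_le_add A1 A2).trans (le_of_eq ?_))
  push_cast
  ring

end Pool.Agent.QSX.H60
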